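import Pool.Agent.W2helper22.ETS.Stm
import Pool.Agent.W2helper71.ET.Asy

/-! Piece `P_ASYS` of the project ETS. -/

set_option autoImplicit false

namespace Pool.Agent.W2helper28.ETS

open Pool.Agent.W2helper22.SM Filter
open Pool.Agent.W2helper22.ET (Algo kk nU)
open Pool.Agent.W2helper22.ETS
open Pool.Agent.W2helper71.ET (lt_pow_bits one_le_bits polylog kk_le le_kk nU_le bits_le cK_le)

theorem nG_le (k n : ℕ) : nG k n ≤ 2 ^ (5 * bits n + 12) := by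
  have h1 := bits_le n
  have h2 := nU_le k n
  unfold nG
  calc bits n ^ 2 * nU k n * 400 ≤ (2 ^ bits n) ^ 2 * 2 ^ (3 * bits n + 3) * 2 ^ 9 := by
        gcongr; norm_num
    _ = 2 ^ (5 * bits n + 12) := by
      rw [← pow_mul, ← pow_add, ← pow_add]
      congr 1
      ring

theorem nL_le (k n : ℕ) : nL k n + 2 ≤ 2 ^ (6 * bits n + 20) := by
  have h1 := nG_le k n
  have h2 := cK_le n
  have h3 : nL k n ≤ 2 ^ (6 * bits n + 19) := by
    unfold nL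
    calc nG k n * cK n ≤ 2 ^ (5 * bits n + 12) * 2 ^ (bits n + 7) := Nat.mul_le_mul h1 h2
      _ = 2 ^ (6 * bits n + 19) := by
        rw [← pow_add]
        congr 1
        ring
  have h4 : 2 ≤ 2 ^ (6 * bits n + 19) := by
    calc 2 = 2 ^ 1 := by norm_num
      _ ≤ 2 ^ (6 * bits n + 19) := Nat.pow_le_pow_right (by norm_num) (by omega)
  calc nL k n + 2 ≤ 2 ^ (6 * bits n + 19) + 2 ^ (6 * bits n + 19) := Nat.add_le_add h3 h4
    _ = 2 ^ (6 * bits n + 20) := by rw [pow_succ 2 (6 * bits n + 19)]; ring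

theorem bigW (P g : Algo) (p q : ℕ) (hq : 0 < q) (hpq : p ≤ 3 * q) :
    ∀ᶠ n : ℕ in atTop, BigW5 P g p q n (2 ^ ((P.wd + g.wd + 1000) * bits n)) := by
  filter_upwards [eventually_ge_atTop (P.prog.mx + g.prog.mx + p + q + 1000 + 2)] with n hn
  have hb := one_le_bits n
  have hlt := lt_pow_bits n
  refine ⟨by omega, hq, hpq, ?_, ?_⟩
  · calc 4 * n ^ 300 ≤ 4 * (2 ^ bits n) ^ 300 := by gcongr
      _ = 2 ^ (2 + bits n * 300) := by rw [← pow_mul, pow_add]; ring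
      _ ≤ 2 ^ ((P.wd + g.wd + 1000) * bits n) := by
        apply Nat.pow_le_pow_right (by norm_num)
        nlinarith [Nat.zero_le ((P.wd + g.wd) * bits n)]
  · set V : ℕ := 2 ^ ((P.wd + g.wd) * bits n) with hV
    have hV1 : 1 ≤ V := Nat.one_le_two_pow
    have hP : P.W n ≤ V := by
      unfold Algo.W
      apply Nat.pow_le_pow_right (by norm_num)
      exact Nat.mul_le_mul_right _ (Nat.le_add_right _ _)
    have hg : g.W n ≤ V := by
      unfold Algo.W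
      apply Nat.pow_le_pow_right (by norm_num)
      exact Nat.mul_le_mul_right _ (Nat.le_add_left _ _)
    have hsum : P.W n + g.W n + P.prog.mx + g.prog.mx + p + q + 1000 ≤ 2 ^ bits n * V := by
      calc P.W n + g.W n + P.prog.mx + g.prog.mx + p + q + 1000
          ≤ (P.prog.mx + g.prog.mx + p + q + 1000 + 2) * V := by
            nlinarith [Nat.mul_le_mul_left (P.prog.mx + g.prog.mx + p + q + 1000) hV1]
        _ ≤ 2 ^ bits n * V := Nat.mul_le_mul_right _ (by omega)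
    have hn8 : (n + 1) ^ 8 ≤ (2 ^ bits n) ^ 8 := Nat.pow_le_pow_left hlt 8
    calc 1000 * (P.W n + g.W n + P.prog.mx + g.prog.mx + p + q + 1000) * (n + 1) ^ 8 *
          (nL (kk p q n) n + 2)
        ≤ 1024 * (2 ^ bits n * V) * (2 ^ bits n) ^ 8 * 2 ^ (6 * bits n + 20) := by
          have := nL_le (kk p q n) n
          gcongr
          norm_num
      _ = 2 ^ (10 + bits n + (P.wd + g.wd) * bits n + bits n * 8 + (6 * bits n + 20)) := by
          rw [hV, ← pow_mul 2 (bits n) 8, show (1024 : ℕ) = 2 ^ 10 by norm_num]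
          simp only [pow_add]
          ring
      _ ≤ 2 ^ ((P.wd + g.wd + 1000) * bits n) := by
          apply Nat.pow_le_pow_right (by norm_num)
          nlinarith

theorem prob_ok (p q : ℕ) : ∀ᶠ n : ℕ in atTop,
    (nG (kk p q n) n : ℝ) * (24 / 25 : ℝ) ^ cK n ≤ 1 / 12 := by
  filter_upwards [polylog 38400 2 1 one_pos, eventually_ge_atTop 1] with n h1 hn
  have hn0 : (1 : ℝ) ≤ n := by exact_mod_cast hn
  rw [Real.rpow_one] at h1
  have hlt := lt_pow_bits n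
  have h2 : (24 / 25 : ℝ) ^ cK n ≤ (1 / 32) ^ bits n := by
    have h3 : (24 / 25 : ℝ) ^ 100 ≤ 1 / 32 := by norm_num
    unfold cK
    calc (24 / 25 : ℝ) ^ (100 * bits n + 1) ≤ (24 / 25 : ℝ) ^ (100 * bits n) :=
          pow_le_pow_of_le_one (by norm_num) (by norm_num) (by omega)
      _ = ((24 / 25 : ℝ) ^ 100) ^ bits n := by rw [pow_mul]
      _ ≤ (1 / 32) ^ bits n := pow_le_pow_left₀ (by positivity) h3 _
  have h3 : (nG (kk p q n) n : ℝ) ≤ 3200 * (bits n : ℝ) ^ 2 * 8 ^ bits n := by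
    have h4 : nG (kk p q n) n ≤ 3200 * bits n ^ 2 * 8 ^ bits n := by
      unfold nG
      have h5 := nU_le (kk p q n) n
      have h6 : 2 ^ (3 * bits n + 3) = 8 * 8 ^ bits n := by
        rw [pow_add, pow_mul]; norm_num; ring
      rw [h6] at h5
      calc bits n ^ 2 * nU (kk p q n) n * 400 ≤ bits n ^ 2 * (8 * 8 ^ bits n) * 400 := by gcongr
        _ = 3200 * bits n ^ 2 * 8 ^ bits n := by ring
    exact_mod_cast h4
  have h4 : (n : ℝ) * n ≤ 4 ^ bits n := by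
    have h5 : n * n ≤ 4 ^ bits n := by
      calc n * n ≤ 2 ^ bits n * 2 ^ bits n := Nat.mul_le_mul hlt.le hlt.le
        _ = 4 ^ bits n := by rw [← mul_pow]; norm_num
    exact_mod_cast h5
  have h5 : (8 : ℝ) ^ bits n * (1 / 32) ^ bits n = 1 / 4 ^ bits n := by
    rw [← mul_pow, ← one_div_pow]
    norm_num
  calc (nG (kk p q n) n : ℝ) * (24 / 25 : ℝ) ^ cK n
      ≤ (3200 * (bits n : ℝ) ^ 2 * 8 ^ bits n) * (1 / 32) ^ bits n :=
        mul_le_mul h3 h2 (by positivity) (by positivity)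
    _ = 3200 * (bits n : ℝ) ^ 2 * (8 ^ bits n * (1 / 32) ^ bits n) := by ring
    _ = 3200 * (bits n : ℝ) ^ 2 / 4 ^ bits n := by rw [h5]; ring
    _ ≤ 1 / 12 := by
      rw [div_le_iff₀ (by positivity)]
      nlinarith

theorem nL_real (p q n : ℕ) (hq : 0 < q) (hpq : p ≤ 3 * q) (hn : 1 ≤ n) :
    (nL (kk p q n) n : ℝ) ≤ 5494400 * (bits n : ℝ) ^ 3 * (n : ℝ) ^ (3 - (p : ℝ) / q) := by
  have h1 := Pool.Agent.W2helper71.ET.nL_real p q n hq hpq hn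
  have h2 : (nL (kk p q n) n : ℝ) = 100 * (Pool.Agent.W2helper22.ET.nL (kk p q n) n : ℝ) := by
    unfold nL Pool.Agent.W2helper22.ET.nL nG Pool.Agent.W2helper22.ET.nG
    push_cast
    ring
  rw [h2]
  linarith

/-- PIECE ASYS -/
theorem asys : P_ASYS := by
  intro P g θ τ σ t e hθ hτ hσ ht ht3 he
  -- `θ ≤ 3`
  have hθ3 : θ ≤ 3 := by
    by_contra hcon
    push Not at hcon
    obtain ⟨n, h1, h2, h3⟩ := ((ht ((θ - 3) / 2) (by linarith)).and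
      (ht3.and (eventually_ge_atTop 2))).exists
    have hn1 : (1 : ℝ) < n := by exact_mod_cast h3
    have h4 : (n : ℝ) ^ (3 : ℝ) < (n : ℝ) ^ (θ - (θ - 3) / 2) :=
      Real.rpow_lt_rpow_of_exponent_lt hn1 (by linarith)
    have h5 : (n : ℝ) ^ (3 : ℝ) = (n : ℝ) ^ 3 := by
      rw [← Real.rpow_natCast]; norm_num
    rw [h5] at h4
    exact absurd (h1.trans h2) (not_le.2 h4)
  obtain ⟨r, hr1, hr2⟩ := exists_rat_btwn (max_lt hτ hθ)
  have hrτ : τ < r := lt_of_le_of_lt (le_max_left _ _) hr1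
  have hr2' : (0 : ℝ) < r := lt_of_le_of_lt (le_max_right _ _) hr1
  have hr0 : 0 < r := by exact_mod_cast hr2'
  set p : ℕ := r.num.toNat with hp
  set q : ℕ := r.den with hq
  have hq0 : 0 < q := r.den_pos
  have hρ : (p : ℝ) / q = r := by
    have h1 : ((p : ℤ) : ℝ) = (r.num : ℝ) := by
      rw [hp, Int.toNat_of_nonneg (Rat.num_pos.2 hr0).le]
    have h2 : (p : ℝ) = (r.num : ℝ) := by exact_mod_cast h1
    rw [h2, Rat.cast_def]
  have hq0' : (0 : ℝ) < q := by exact_mod_cast hq0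
  have hpq : p ≤ 3 * q := by
    have h1 : (p : ℝ) ≤ 3 * q := by
      rw [← div_le_iff₀ hq0', hρ]
      linarith
    exact_mod_cast h1
  set ρ : ℝ := (r : ℝ) with hρdef
  set τ₀ : ℝ := max τ 0 with hτ₀
  have hτ₀ρ : τ₀ < ρ := max_lt hrτ hr2'
  have hτ₀0 : 0 ≤ τ₀ := le_max_right _ _
  set τ₁ : ℝ := max 2 (max (3 - ρ + τ₀) σ) with hτ₁
  have hτ₁3 : τ₁ < 3 := max_lt (by norm_num) (max_lt (by linarith) hσ)
  set δ : ℝ := (3 - τ₁) / 2 with hδ
  have hδ0 : 0 < δ := by linarith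
  refine ⟨p, q, τ₁ + δ, by linarith, ?_⟩
  filter_upwards [bigW P g p q hq0 hpq, prob_ok p q, eventually_ge_atTop 1,
    ht ((θ - ρ) / 2) (by linarith),
    polylog (2 ^ 300) 100 ((θ - ρ) / 2) (by linarith),
    polylog (10 ^ 13) 3 δ hδ0, he] with n h1 h2 hn h3 h5 h7 hen
  have hn0 : (0 : ℝ) < n := by exact_mod_cast hn
  have hn1 : (1 : ℝ) ≤ n := by exact_mod_cast hn
  have hkk := kk_le p q n hq0 hn
  rw [hρ] at hkk
  refine ⟨h1, ?_, h2, ?_⟩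
  · have h8 : ((2 ^ (kk p q n + 300) * bits n ^ 100 : ℕ) : ℝ) ≤ t n := by
      rw [Nat.cast_mul, Nat.cast_pow, Nat.cast_pow]
      calc ((2 : ℕ) : ℝ) ^ (kk p q n + 300) * (bits n : ℝ) ^ 100
          = (2 : ℝ) ^ kk p q n * ((2 : ℝ) ^ 300 * (bits n : ℝ) ^ 100) := by
            rw [pow_add, mul_assoc, Nat.cast_ofNat]
        _ ≤ (n : ℝ) ^ ρ * (n : ℝ) ^ ((θ - ρ) / 2) := by
            apply mul_le_mul hkk h5 (by positivity) (by positivity)
        _ = (n : ℝ) ^ (θ - (θ - ρ) / 2) := by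
          rw [← Real.rpow_add hn0]; congr 1; ring
        _ ≤ t n := h3
    exact_mod_cast h8
  · have hnL := nL_real p q n hq0 hpq hn
    rw [hρ] at hnL
    have hb : (1 : ℝ) ≤ (bits n : ℝ) ^ 3 := one_le_pow₀ (by exact_mod_cast one_le_bits n)
    set b3 : ℝ := (bits n : ℝ) ^ 3 with hb3
    have hX : 1 ≤ (n : ℝ) ^ (3 - ρ) := Real.one_le_rpow hn1 (by linarith)
    have hbX : 1 ≤ b3 * (n : ℝ) ^ (3 - ρ) := by nlinarith
    have hZ : (n : ℝ) ^ τ ≤ (n : ℝ) ^ τ₀ :=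
      Real.rpow_le_rpow_of_exponent_le hn1 (le_max_left _ _)
    have hZ1 : 1 ≤ (n : ℝ) ^ τ₀ := Real.one_le_rpow hn1 hτ₀0
    have hfl1 : (⌊(n : ℝ) ^ τ⌋₊ : ℝ) ≤ (n : ℝ) ^ τ₀ :=
      (Nat.floor_le (by positivity)).trans hZ
    have hfl2 : (⌊(n : ℝ) ^ σ⌋₊ : ℝ) ≤ (n : ℝ) ^ σ := Nat.floor_le (by positivity)
    have hY1 : (n : ℝ) ^ 2 ≤ (n : ℝ) ^ τ₁ := by
      rw [← Real.rpow_natCast]
      apply Real.rpow_le_rpow_of_exponent_le hn1
      refine le_trans (le_of_eq ?_) (le_max_left _ _)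
      norm_num
    have hY2 : (n : ℝ) ^ (3 - ρ) * (n : ℝ) ^ τ₀ ≤ (n : ℝ) ^ τ₁ := by
      rw [← Real.rpow_add hn0]
      exact Real.rpow_le_rpow_of_exponent_le hn1
        (le_trans (le_max_left _ _) (le_max_right _ _))
    have hY3 : (n : ℝ) ^ σ ≤ (n : ℝ) ^ τ₁ :=
      Real.rpow_le_rpow_of_exponent_le hn1 (le_trans (le_max_right _ _) (le_max_right _ _))
    have hY0 : 0 < (n : ℝ) ^ τ₁ := Real.rpow_pos_of_pos hn0 _
    have hn2 : ((n : ℝ) + 1) ^ 2 ≤ 4 * (n : ℝ) ^ 2 := by nlinarith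
    have e4 : (n : ℝ) ^ τ₁ ≤ b3 * (n : ℝ) ^ τ₁ := by nlinarith
    have hen' : (e n : ℝ) + 1 ≤ 13 * (n : ℝ) ^ τ₀ := by linarith
    have e0 : 2000 * ((n : ℝ) + 1) ^ 2 ≤ 8000 * (b3 * (n : ℝ) ^ τ₁) := by linarith
    have e1 : 2000 * ((nL (kk p q n) n : ℝ) + 1) * ((e n : ℝ) + 1) ≤
        142854426000 * (b3 * (n : ℝ) ^ τ₁) := by
      calc 2000 * ((nL (kk p q n) n : ℝ) + 1) * ((e n : ℝ) + 1)
          ≤ 2000 * (5494401 * (b3 * (n : ℝ) ^ (3 - ρ))) * (13 * (n : ℝ) ^ τ₀) := by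
            gcongr
            linarith
        _ = 142854426000 * (b3 * ((n : ℝ) ^ (3 - ρ) * (n : ℝ) ^ τ₀)) := by ring
        _ ≤ 142854426000 * (b3 * (n : ℝ) ^ τ₁) := by gcongr
    have e2 : (nL (kk p q n) n : ℝ) * (⌊(n : ℝ) ^ τ⌋₊ : ℝ) ≤ 5494400 * (b3 * (n : ℝ) ^ τ₁) := by
      calc (nL (kk p q n) n : ℝ) * (⌊(n : ℝ) ^ τ⌋₊ : ℝ)
          ≤ (5494400 * b3 * (n : ℝ) ^ (3 - ρ)) * (n : ℝ) ^ τ₀ := by gcongr
        _ = 5494400 * (b3 * ((n : ℝ) ^ (3 - ρ) * (n : ℝ) ^ τ₀)) := by ring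
        _ ≤ 5494400 * (b3 * (n : ℝ) ^ τ₁) := by gcongr
    have e3 : (⌊(n : ℝ) ^ σ⌋₊ : ℝ) ≤ b3 * (n : ℝ) ^ τ₁ := (hfl2.trans hY3).trans e4
    have e5 : 0 ≤ b3 * (n : ℝ) ^ τ₁ := by positivity
    push_cast
    calc 2000 * ((n : ℝ) + 1) ^ 2 + 2000 * ((nL (kk p q n) n : ℝ) + 1) * ((e n : ℝ) + 1) +
          10 * ((nL (kk p q n) n : ℝ) * (⌊(n : ℝ) ^ τ⌋₊ : ℝ) + (⌊(n : ℝ) ^ σ⌋₊ : ℝ))
        ≤ (10 ^ 13 * b3) * (n : ℝ) ^ τ₁ := by linarith
      _ ≤ (n : ℝ) ^ δ * (n : ℝ) ^ τ₁ := by gcongr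
      _ = (n : ℝ) ^ (τ₁ + δ) := by rw [← Real.rpow_add hn0]; congr 1; ring

end Pool.Agent.W2helper28.ETS
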