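import Pool.Agent.W2helper28.ET.Up
import Pool.Agent.W2helper22.ETS.Stm

/-!
# Piece UPS of project ETS: listing the triangles of the pattern, all exponents
-/

set_option autoImplicit false

namespace Pool.Agent.W2helper28.ETS

open Pool.Agent.W2helper22.SM Pool.Agent.W2helper22.ET Pool.Agent.W2helper28.ET
open Pool.Agent.W2helper22.ETS (P_UPS)

/-- PIECE UPS -/
theorem ups : P_UPS := by
  intro G θ hθ ⟨g, hg⟩ τ hτ
  refine ⟨upAlgo g, ?_⟩
  set ε := (τ - θ) / 2 with hε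
  have hε0 : 0 < ε := by rw [hε]; linarith
  have hlarge : ∀ᶠ n : ℕ in Filter.atTop, (764 : ℝ) ≤ (n : ℝ) ^ ε :=
    ((tendsto_rpow_atTop hε0).comp tendsto_natCast_atTop_atTop).eventually_ge_atTop _
  filter_upwards [hg ε hε0, hlarge, Filter.eventually_ge_atTop 1,
    Filter.eventually_ge_atTop g.prog.mx] with n hL hn1 hn hmx
  intro X hX
  obtain ⟨hbig0, h2W, hnW⟩ := nums n g.wd hn
  have hmx' : g.prog.mx < (upAlgo g).W n := lt_of_le_of_lt hmx hnW
  have hrun : ∀ ω : Tape ((upAlgo g).W n) (bits n), ∃ m t,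
      Runs ((upAlgo g).W n) ω.word (upAlgo g).prog X.enc m t ∧ (t : ℝ) ≤ (n : ℝ) ^ τ ∧
      (m.v 1 ≠ 0 ↔ X.Yes) := by
    intro ω
    obtain ⟨μ, t, hr, ht, hlen, hlist⟩ := hL (fun i j => ω.word (2 * i) j) (fun i j => by
      unfold Tape.word
      split_ifs with h
      · exact (ω ⟨2 * i, h.1⟩ ⟨j, h.2⟩).2
      · positivity)
    obtain ⟨m', c, r1, r2, r3⟩ := up_run (W' := (upAlgo g).W n) g X ω.word μ t hn h2W hmx'
      hbig0 hr
    refine ⟨m', c, r1, ?_, r3.trans (yes_iff X (G n) hX μ hlist)⟩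
    have hnpos : (0 : ℝ) < n := by exact_mod_cast hn
    have hn1' : (1 : ℝ) ≤ n := by exact_mod_cast hn
    have hT1 : 1 ≤ (n : ℝ) ^ (θ + ε) := Real.one_le_rpow hn1' (by linarith)
    have hc : (c : ℝ) ≤ 700 + 10 * t + 54 * (μ.v 1 : ℝ) := by exact_mod_cast r2
    have hsplit : (n : ℝ) ^ τ = (n : ℝ) ^ (θ + ε) * (n : ℝ) ^ ε := by
      rw [← Real.rpow_add hnpos, show θ + ε + ε = τ by rw [hε]; ring]
    rw [hsplit]
    calc (c : ℝ) ≤ 700 + 10 * t + 54 * (μ.v 1 : ℝ) := hc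
      _ ≤ 700 * (n : ℝ) ^ (θ + ε) + 10 * (n : ℝ) ^ (θ + ε) + 54 * (n : ℝ) ^ (θ + ε) := by
          linarith
      _ = (n : ℝ) ^ (θ + ε) * 764 := by ring
      _ ≤ (n : ℝ) ^ (θ + ε) * (n : ℝ) ^ ε := by gcongr
  refine ⟨fun ω => ?_, ?_⟩
  · obtain ⟨m, t, h1, h2, h3⟩ := hrun ω
    exact ⟨m, t, h1, h2⟩
  · have hall : (fun ω : Tape ((upAlgo g).W n) (bits n) => ∃ m t,
        Runs ((upAlgo g).W n) ω.word (upAlgo g).prog X.enc m t ∧ (m.v 1 ≠ 0 ↔ X.Yes)) =
        fun _ => True := by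
      funext ω
      apply propext
      refine ⟨fun _ => trivial, fun _ => ?_⟩
      obtain ⟨m, t, h1, h2, h3⟩ := hrun ω
      exact ⟨m, t, h1, h3⟩
    rw [hall]
    have : Nonempty (Fin (2 ^ bits n)) := ⟨⟨0, by positivity⟩⟩
    have hone : prob (fun _ : Tape ((upAlgo g).W n) (bits n) => True) = 1 := by
      unfold prob
      have h1 : Nat.card {ω : Tape ((upAlgo g).W n) (bits n) // True} =
          Nat.card (Tape ((upAlgo g).W n) (bits n)) :=
        Nat.card_congr (Equiv.subtypeUnivEquiv (fun _ => trivial))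
      rw [h1, div_self]
      have h2 : 0 < Nat.card (Tape ((upAlgo g).W n) (bits n)) := Nat.card_pos
      exact_mod_cast h2.ne'
    rw [hone]
    norm_num

end Pool.Agent.W2helper28.ETS
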